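import Pool.Agent.W841.PK.ChkS

namespace Pool.Agent.W52.PK.DigMul

open Finset W841.PK.Chk

theorem dg_smul (h : S_Dig) (X B : ℕ) (hX : ∀ i, dg X i ≤ B) (d : ℕ) :
    d * B < 2 ^ 88 → ∀ i, dg (d * X) i = d * dg X i := by
  induction d with
  | zero => intro _ i; simp [dg]
  | succ d ih =>
    intro hd i
    have h1 : d * B < 2 ^ 88 := lt_of_le_of_lt (Nat.mul_le_mul_right _ (Nat.le_succ d)) hd
    have h2 := ih h1
    rw [Nat.succ_mul, h.1 (d * X) X i, h2 i, Nat.succ_mul]
    intro j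
    rw [h2 j, ← Nat.succ_mul]
    exact lt_of_le_of_lt (Nat.mul_le_mul_left _ (hX j)) hd

theorem aux (h : S_Dig) (X B : ℕ) (hX : ∀ i, dg X i ≤ B) (n : ℕ) :
    ∀ Y, Y < 2 ^ (88 * n) → B * (∑ m ∈ range n, dg Y m) < 2 ^ 88 →
    ∀ l, dg (X * Y) l = ∑ m ∈ range n, if m ≤ l then dg Y m * dg X (l - m) else 0 := by
  induction n with
  | zero =>
    intro Y hY _ l
    have hY0 : Y = 0 := by simpa using hY
    subst hY0
    simp [dg]
  | succ n ih =>
    intro Y hY hB l
    have hS := h
    obtain ⟨hadd, hshift, hdiv, hmod, -, -, -, hzero, hlt⟩ := h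
    have hsplit : Y = Y % 2 ^ (88 * n) + 2 ^ (88 * n) * dg Y n := by
      have h1 : dg Y n = Y / 2 ^ (88 * n) := by
        unfold dg
        apply Nat.mod_eq_of_lt
        rw [Nat.div_lt_iff_lt_mul (by positivity), ← pow_add]
        calc Y < 2 ^ (88 * (n + 1)) := hY
          _ = 2 ^ (88 + 88 * n) := by congr 1; ring
      rw [h1, Nat.mod_add_div]
    have hY0 : Y % 2 ^ (88 * n) < 2 ^ (88 * n) := Nat.mod_lt _ (by positivity)
    have hdig : ∀ m < n, dg (Y % 2 ^ (88 * n)) m = dg Y m := by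
      intro m hm
      rw [hmod, if_pos hm]
    have hs0 : ∑ m ∈ range n, dg (Y % 2 ^ (88 * n)) m = ∑ m ∈ range n, dg Y m :=
      Finset.sum_congr rfl fun m hm => hdig m (mem_range.1 hm)
    rw [Finset.sum_range_succ, mul_add] at hB
    have hB1 : B * (∑ m ∈ range n, dg (Y % 2 ^ (88 * n)) m) < 2 ^ 88 := by
      rw [hs0]; omega
    have hB2 : dg Y n * B < 2 ^ 88 := by
      rw [mul_comm]; omega
    have h3 := ih (Y % 2 ^ (88 * n)) hY0 hB1
    have h4 := dg_smul hS X B hX (dg Y n) hB2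
    have h5 : ∀ l, dg (X * (Y % 2 ^ (88 * n))) l =
        ∑ m ∈ range n, if m ≤ l then dg Y m * dg X (l - m) else 0 := by
      intro l
      rw [h3 l]
      exact Finset.sum_congr rfl fun m hm => by rw [hdig m (mem_range.1 hm)]
    have h6 : ∀ l, dg (2 ^ (88 * n) * (dg Y n * X)) l =
        if n ≤ l then dg Y n * dg X (l - n) else 0 := by
      intro l
      rw [hshift]
      by_cases hl : l < n
      · rw [if_pos hl, if_neg (by omega)]
      · rw [if_neg hl, if_pos (by omega), h4]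
    have h7 : X * Y = X * (Y % 2 ^ (88 * n)) + 2 ^ (88 * n) * (dg Y n * X) := by
      conv_lhs => rw [hsplit]
      ring
    rw [h7, hadd, h5, h6, Finset.sum_range_succ]
    intro i
    rw [h5, h6]
    have h8 : (∑ m ∈ range n, if m ≤ i then dg Y m * dg X (i - m) else 0) ≤
        B * ∑ m ∈ range n, dg Y m := by
      rw [Finset.mul_sum]
      refine Finset.sum_le_sum fun m _ => ?_
      split_ifs
      · rw [mul_comm]; exact Nat.mul_le_mul_right _ (hX _)
      · exact Nat.zero_le _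
    have h9 : (if n ≤ i then dg Y n * dg X (i - n) else 0) ≤ B * dg Y n := by
      split_ifs
      · rw [mul_comm]; exact Nat.mul_le_mul_right _ (hX _)
      · exact Nat.zero_le _
    omega

theorem digmul (h : S_Dig) : S_DigMul := fun X Y n B l hX hY hB => aux h X B hX n Y hY hB l

end Pool.Agent.W52.PK.DigMul
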