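import Pool.Agent.W841.PK.ChkS

namespace Pool.Agent.W52.PK.DigRev

open Finset W841.PK.Chk

theorem frc_eq {α : Type} (n : ℕ) (f : ℕ → α) : frc n f = f n := by
  cases n <;> rfl

theorem rev_succ (k N acc : ℕ) :
    rev (k + 1) N acc = rev k (N / 2 ^ 88) (acc * 2 ^ 88 + N % 2 ^ 88) := by
  rw [rev, frc_eq, frc_eq]

theorem pick_succ (f : ℕ → ℕ) (r n i acc : ℕ) :
    pick f r (n + 1) i acc = pick f r n (i - r) (acc * 2 ^ 88 + f i) := by
  rw [pick, frc_eq, frc_eq]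

theorem pow_split (k : ℕ) : (2 : ℕ) ^ (88 * (k + 1)) = 2 ^ (88 * k) * 2 ^ 88 := by
  rw [← pow_add]; congr 1

theorem rev_acc (k : ℕ) : ∀ N acc : ℕ, rev k N acc = rev k N 0 + 2 ^ (88 * k) * acc := by
  induction k with
  | zero => intro N acc; simp [rev]
  | succ k ih =>
    intro N acc
    rw [rev_succ, rev_succ, ih (N / 2 ^ 88) (acc * 2 ^ 88 + N % 2 ^ 88),
      ih (N / 2 ^ 88) (0 * 2 ^ 88 + N % 2 ^ 88), pow_split]
    ring

theorem pick_acc (f : ℕ → ℕ) (r n : ℕ) :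
    ∀ i acc : ℕ, pick f r n i acc = pick f r n i 0 + 2 ^ (88 * n) * acc := by
  induction n with
  | zero => intro i acc; simp [pick]
  | succ n ih =>
    intro i acc
    rw [pick_succ, pick_succ, ih (i - r) (acc * 2 ^ 88 + f i),
      ih (i - r) (0 * 2 ^ 88 + f i), pow_split]
    ring

theorem dg_cat (R k d i : ℕ) (hR : R < 2 ^ (88 * k)) :
    dg (R + 2 ^ (88 * k) * d) i = if i < k then dg R i else dg d (i - k) := by
  unfold dg
  by_cases hi : i < k
  · rw [if_pos hi]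
    obtain ⟨j, rfl⟩ : ∃ j, k = i + 1 + j := ⟨k - (i + 1), by omega⟩
    have h1 : (2 : ℕ) ^ (88 * (i + 1 + j)) * d = 2 ^ (88 * i) * (2 ^ 88 * (2 ^ (88 * j) * d)) := by
      rw [show 88 * (i + 1 + j) = 88 * i + 88 + 88 * j by ring, pow_add, pow_add]
      ring
    rw [h1, Nat.add_mul_div_left _ _ (by positivity), Nat.add_mul_mod_self_left]
  · rw [if_neg hi]
    push Not at hi
    obtain ⟨j, rfl⟩ : ∃ j, i = k + j := ⟨i - k, by omega⟩
    have h1 : (2 : ℕ) ^ (88 * (k + j)) = 2 ^ (88 * k) * 2 ^ (88 * j) := by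
      rw [← pow_add]; congr 1; ring
    rw [h1, ← Nat.div_div_eq_div_mul, Nat.add_mul_div_left _ _ (by positivity),
      Nat.div_eq_of_lt hR, zero_add, Nat.add_sub_cancel_left]

theorem dg_small (d j : ℕ) (hd : d < 2 ^ 88) : dg d j = if j = 0 then d else 0 := by
  unfold dg
  by_cases hj : j = 0
  · subst hj
    rw [mul_zero, pow_zero, Nat.div_one, if_pos rfl]
    exact Nat.mod_eq_of_lt hd
  · rw [if_neg hj]
    have h1 : (2 : ℕ) ^ 88 ≤ 2 ^ (88 * j) := Nat.pow_le_pow_right (by norm_num) (by omega)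
    rw [Nat.div_eq_of_lt (lt_of_lt_of_le hd h1), Nat.zero_mod]

theorem dg_div (N i : ℕ) : dg (N / 2 ^ 88) i = dg N (i + 1) := by
  unfold dg
  rw [Nat.div_div_eq_div_mul, ← pow_add]
  congr 3
  ring

theorem cat_lt (R k d : ℕ) (hR : R < 2 ^ (88 * k)) (hd : d < 2 ^ 88) :
    R + 2 ^ (88 * k) * d < 2 ^ (88 * (k + 1)) := by
  rw [pow_split]
  calc R + 2 ^ (88 * k) * d < 2 ^ (88 * k) + 2 ^ (88 * k) * d := by omega
    _ = 2 ^ (88 * k) * (d + 1) := by ring
    _ ≤ 2 ^ (88 * k) * 2 ^ 88 := Nat.mul_le_mul_left _ hd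

theorem rev_dg (k : ℕ) : ∀ N : ℕ, rev k N 0 < 2 ^ (88 * k) ∧
    ∀ i, dg (rev k N 0) i = if i < k then dg N (k - 1 - i) else 0 := by
  induction k with
  | zero =>
    intro N
    refine ⟨by simp [rev], fun i => ?_⟩
    simp [rev, dg]
  | succ k ih =>
    intro N
    obtain ⟨h1, h2⟩ := ih (N / 2 ^ 88)
    have hd : N % 2 ^ 88 < 2 ^ 88 := Nat.mod_lt _ (by positivity)
    have h3 : rev (k + 1) N 0 = rev k (N / 2 ^ 88) 0 + 2 ^ (88 * k) * (N % 2 ^ 88) := by
      rw [rev_succ, rev_acc k (N / 2 ^ 88) (0 * 2 ^ 88 + N % 2 ^ 88), zero_mul, zero_add]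
    refine ⟨by rw [h3]; exact cat_lt _ _ _ h1 hd, fun i => ?_⟩
    rw [h3, dg_cat _ _ _ _ h1]
    by_cases hi : i < k
    · rw [if_pos hi, if_pos (by omega), h2, if_pos hi, dg_div]
      congr 1
      omega
    · rw [if_neg hi, dg_small _ _ hd]
      by_cases hik : i = k
      · rw [if_pos (by omega), if_pos (by omega)]
        have h4 : k + 1 - 1 - i = 0 := by omega
        rw [h4]
        simp [dg]
      · rw [if_neg (by omega), if_neg (by omega)]

theorem pick_dg (f : ℕ → ℕ) (hf : ∀ i, f i < 2 ^ 88) (r n : ℕ) : ∀ i0 : ℕ,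
    pick f r n i0 0 < 2 ^ (88 * n) ∧
    ∀ j, dg (pick f r n i0 0) j = if j < n then f (i0 - r * (n - 1 - j)) else 0 := by
  induction n with
  | zero =>
    intro i0
    refine ⟨by simp [pick], fun i => ?_⟩
    simp [pick, dg]
  | succ n ih =>
    intro i0
    obtain ⟨h1, h2⟩ := ih (i0 - r)
    have h3 : pick f r (n + 1) i0 0 = pick f r n (i0 - r) 0 + 2 ^ (88 * n) * f i0 := by
      rw [pick_succ, pick_acc f r n (i0 - r) (0 * 2 ^ 88 + f i0), zero_mul, zero_add]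
    refine ⟨by rw [h3]; exact cat_lt _ _ _ h1 (hf i0), fun j => ?_⟩
    rw [h3, dg_cat _ _ _ _ h1]
    by_cases hj : j < n
    · rw [if_pos hj, if_pos (by omega), h2, if_pos hj]
      have h4 : n + 1 - 1 - j = (n - 1 - j) + 1 := by omega
      rw [h4, Nat.sub_sub, mul_add, mul_one, add_comm r]
    · rw [if_neg hj, dg_small _ _ (hf i0)]
      by_cases hjn : j = n
      · rw [if_pos (by omega), if_pos (by omega)]
        have h4 : n + 1 - 1 - j = 0 := by omega
        rw [h4, mul_zero, Nat.sub_zero]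
      · rw [if_neg (by omega), if_neg (by omega)]

theorem digrev (_h : S_Dig) : S_DigRev :=
  ⟨fun k N i => (rev_dg k N).2 i, fun f r n i0 j hf _ => (pick_dg f hf r n i0).2 j,
    fun f r n i0 hf => (pick_dg f hf r n i0).1⟩

end Pool.Agent.W52.PK.DigRev
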