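import Pool.Agent.W841.PK.ChkS

set_option maxRecDepth 100000

namespace Pool.Agent.W52.PK.TabW

open Finset W841.PK W841.PK.Chk

theorem tabw : S_TabW := by
  unfold S_TabW
  refine ⟨?_, ?_, ?_, ?_, ?_, ?_, ?_, ?_, ?_⟩
  · decide +kernel
  · decide +kernel
  · decide +kernel
  · decide +kernel
  · decide +kernel
  · decide +kernel
  · decide +kernel
  · decide +kernel
  · decide +kernel

end Pool.Agent.W52.PK.TabW
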